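import Pool.Agent.helper84.QI.Spec

/-! Row `qi:FGL` (MP_fd6eef_al): the decomposition `x = δ t`. -/

set_option autoImplicit false

namespace Pool.Agent.QI

/-- two involutions which commute and generate a cyclic group are equal -/
theorem FGL_two {F : Type} [Group F] (z i : F) (hz : z * z = 1) (hi : i * i = 1) (hzi : z * i = i * z) (hz1 : z ≠ 1) (hi1 : i ≠ 1)
    (hc : ∀ K : Subgroup F, K ≤ Subgroup.centralizer ({i} : Set F) → IsPGroup 2 K → IsCyclic K) : z = i := by
  have hcomm : ∀ x ∈ Subgroup.closure ({z, i} : Set F), ∀ y ∈ Subgroup.closure ({z, i} : Set F), x * y = y * x := by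
    have h1 : ∀ x ∈ Subgroup.closure ({z, i} : Set F), z * x = x * z ∧ i * x = x * i := by
      intro x hx
      induction hx using Subgroup.closure_induction with
      | mem y hy =>
        rcases hy with rfl | hy
        · exact ⟨rfl, hzi.symm⟩
        · rw [Set.mem_singleton_iff.1 hy]
          exact ⟨hzi, rfl⟩
      | one => simp
      | mul a b _ _ ha hb =>
        constructor
        · rw [← mul_assoc, ha.1, mul_assoc, hb.1, mul_assoc]
        · rw [← mul_assoc, ha.2, mul_assoc, hb.2, mul_assoc]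
      | inv a _ ha =>
        exact ⟨((Commute.inv_right (a := z) (b := a) ha.1)), ((Commute.inv_right (a := i) (b := a) ha.2))⟩
    intro x hx y hy
    induction hx using Subgroup.closure_induction with
    | mem w hw =>
      rcases hw with rfl | hw
      · exact (h1 y hy).1
      · rw [Set.mem_singleton_iff.1 hw]
        exact (h1 y hy).2
    | one => simp
    | mul a b _ _ ha hb => rw [mul_assoc, hb, ← mul_assoc, ha, mul_assoc]
    | inv a _ ha => exact (Commute.inv_left (a := a) (b := y) ha)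
  have hsq : ∀ x ∈ Subgroup.closure ({z, i} : Set F), x * x = 1 := by
    intro x hx
    induction hx using Subgroup.closure_induction with
    | mem w hw =>
      rcases hw with rfl | hw
      · exact hz
      · rw [Set.mem_singleton_iff.1 hw]
        exact hi
    | one => simp
    | mul a b hma hmb ha hb =>
      calc a * b * (a * b) = a * (b * a) * b := by group
        _ = a * (a * b) * b := by rw [hcomm b hmb a hma]
        _ = (a * a) * (b * b) := by group
        _ = 1 := by rw [ha, hb, mul_one]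
    | inv a _ ha => rw [← mul_inv_rev, ha, inv_one]
  have hle : Subgroup.closure ({z, i} : Set F) ≤ Subgroup.centralizer ({i} : Set F) := by
    rw [Subgroup.closure_le]
    intro y hy
    rw [SetLike.mem_coe, Subgroup.mem_centralizer_singleton_iff]
    rcases hy with rfl | hy
    · exact hzi
    · rw [Set.mem_singleton_iff.1 hy]
  have hp : IsPGroup 2 (Subgroup.closure ({z, i} : Set F)) := by
    intro y
    refine ⟨1, ?_⟩
    apply Subtype.ext
    have := hsq y.1 y.2
    simp [pow_two, this]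
  have hcy := hc _ hle hp
  obtain ⟨g, hg⟩ := hcy.exists_generator
  have hgg : g.1 * g.1 = 1 := hsq g.1 g.2
  have hpw : ∀ n : ℤ, g.1 ^ n = 1 ∨ g.1 ^ n = g.1 := by
    intro n
    rcases Int.even_or_odd' n with ⟨k, hk | hk⟩
    · left
      rw [hk, zpow_mul]
      have : g.1 ^ (2 : ℤ) = 1 := by
        rw [show (2 : ℤ) = ((2 : ℕ) : ℤ) by norm_num, zpow_natCast, pow_two, hgg]
      rw [this, one_zpow]
    · right
      rw [hk, zpow_add, zpow_mul]
      have : g.1 ^ (2 : ℤ) = 1 := by
        rw [show (2 : ℤ) = ((2 : ℕ) : ℤ) by norm_num, zpow_natCast, pow_two, hgg]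
      rw [this, one_zpow, one_mul, zpow_one]
  have hall : ∀ y ∈ Subgroup.closure ({z, i} : Set F), y ≠ 1 → y = g.1 := by
    intro y hy hy1
    obtain ⟨n, hn⟩ := Subgroup.mem_zpowers_iff.1 (hg ⟨y, hy⟩)
    have hn' : g.1 ^ n = y := by
      have := congrArg Subtype.val hn
      simpa using this
    rcases hpw n with h | h
    · exact absurd (hn'.symm.trans h) hy1
    · exact hn'.symm.trans h
  exact (hall z (Subgroup.subset_closure (by simp)) hz1).trans (hall i (Subgroup.subset_closure (by simp)) hi1).symm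

/-- the finite case -/
theorem FGL_fin (hSYF : SYF_stmt) {F : Type} [Group F] [Finite F] (i x : F) (hi : i * i = 1) (hi1 : i ≠ 1)
    (hc : ∀ K : Subgroup F, K ≤ Subgroup.centralizer ({i} : Set F) → IsPGroup 2 K → IsCyclic K) (hx : Ord4 x) :
    ∃ δ : F, δ * i = i * δ ∧ (δ⁻¹ * x) * (δ⁻¹ * x) = 1 ∧ i ∈ Subgroup.zpowers δ := by
  obtain ⟨T, _, φ, hodd, -⟩ := hSYF F i hi hi1 hc
  have hinv : i⁻¹ = i := inv_eq_of_mul_eq_one_left hi
  have hO : ∀ y : F, φ y = 1 → Odd (orderOf y) := by
    intro y hy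
    exact Odd.of_dvd_nat hodd (Subgroup.orderOf_dvd_natCard φ.ker (MonoidHom.mem_ker.2 hy))
  have hφi : φ i * φ i = 1 := by rw [← map_mul, hi, map_one]
  obtain ⟨r, hr⟩ : ∃ r : F, r = i * (x⁻¹ * i * x) := ⟨_, rfl⟩
  have hφr : φ r = 1 := by
    rw [hr, map_mul, map_mul, map_mul, map_inv]
    calc φ i * ((φ x)⁻¹ * φ i * φ x) = φ i * φ i * ((φ x)⁻¹ * φ x) := by
          rw [mul_comm ((φ x)⁻¹) (φ i), mul_assoc, mul_assoc]
      _ = 1 := by rw [hφi, inv_mul_cancel, mul_one]
  obtain ⟨m, hm⟩ := hO r hφr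
  obtain ⟨s, hs⟩ : ∃ s : F, s = r ^ (m + 1) := ⟨_, rfl⟩
  have hss : s * s = r := by
    rw [hs, ← pow_add, show m + 1 + (m + 1) = (2 * m + 1) + 1 by ring, ← hm, pow_succ, pow_orderOf_eq_one, one_mul]
  have hrinv : i * r * i⁻¹ = r⁻¹ := by
    rw [hr]
    simp only [mul_inv_rev, inv_inv, hinv]
    calc i * (i * (x⁻¹ * i * x)) * i = (i * i) * (x⁻¹ * i * x) * i := by group
      _ = x⁻¹ * (i * x) * i := by rw [hi]; group
  have hsinv : i * s * i = s⁻¹ := by
    have h1 : (i * r * i⁻¹) ^ (m + 1) = i * r ^ (m + 1) * i⁻¹ := conj_pow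
    rw [hrinv, inv_pow, ← hs, hinv] at h1
    exact h1.symm
  have hφs : φ s = 1 := by rw [hs, map_pow, hφr, one_pow]
  obtain ⟨t, ht⟩ : ∃ t : F, t = i * s := ⟨_, rfl⟩
  have htt : t * t = 1 := by
    rw [ht]
    calc i * s * (i * s) = (i * s * i) * s := by group
      _ = 1 := by rw [hsinv, inv_mul_cancel]
  have htinv : t⁻¹ = t := inv_eq_of_mul_eq_one_left htt
  have hti : t * i * t = x⁻¹ * i * x := by
    have h1 : i * r = x⁻¹ * i * x := by
      rw [hr, ← mul_assoc, hi, one_mul]
    rw [← h1, ← hss, ht]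
    calc i * s * i * (i * s) = i * s * (i * i) * s := by group
      _ = i * (s * s) := by rw [hi]; group
  obtain ⟨δ, hδ⟩ : ∃ δ : F, δ = x * t := ⟨_, rfl⟩
  have hcomm : δ * i = i * δ := by
    have h2 : t * i = x⁻¹ * i * x * t := by
      rw [← hti]
      calc t * i = t * i * (t * t) := by rw [htt, mul_one]
        _ = t * i * t * t := by group
    rw [hδ, mul_assoc, h2]
    group
  have hδx : δ⁻¹ * x = t := by
    rw [hδ, mul_inv_rev, htinv, mul_assoc, inv_mul_cancel, mul_one]
  have hφδ : φ δ = φ x * φ i := by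
    rw [hδ, ht, map_mul, map_mul, hφs, mul_one]
  have hoddpow : ∀ n : ℕ, Odd n → φ i ^ n = φ i := by
    rintro n ⟨k, rfl⟩
    rw [pow_succ, pow_mul, pow_two, hφi, one_pow, one_mul]
  have heven : Even (orderOf δ) := by
    by_contra hne
    rw [Nat.not_even_iff_odd] at hne
    have h1 : φ x ^ orderOf δ * φ i = 1 := by
      have h2 : φ δ ^ orderOf δ = 1 := by rw [← map_pow, pow_orderOf_eq_one, map_one]
      rw [hφδ, mul_pow, hoddpow _ hne] at h2
      exact h2
    have h3 : φ x ^ orderOf δ = φ i := by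
      calc φ x ^ orderOf δ = φ x ^ orderOf δ * (φ i * φ i) := by rw [hφi, mul_one]
        _ = φ i := by rw [← mul_assoc, h1, one_mul]
    rcases hx with hx | ⟨k, hk2, hk⟩
    · have h4 : φ i = 1 := by
        rw [← hoddpow _ hx, ← h3, ← pow_mul, mul_comm, pow_mul, ← map_pow, pow_orderOf_eq_one, map_one, one_pow]
      have h5 := hO i h4
      have h6 : orderOf i = 2 := orderOf_eq_prime (by rw [pow_two, hi]) hi1
      rw [h6] at h5
      exact absurd h5 (by decide)
    · have h4 : φ (x ^ (2 * orderOf δ)) = 1 := by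
        rw [map_pow, mul_comm, pow_mul, h3, pow_two, hφi]
      have h5 := hO _ h4
      have h6 : orderOf (x ^ (2 * orderOf δ)) ∣ 2 ^ k := by
        rw [← hk]
        exact orderOf_pow_dvd _
      have h7 : orderOf (x ^ (2 * orderOf δ)) = 1 := by
        have hcop : Nat.Coprime (orderOf (x ^ (2 * orderOf δ))) (2 ^ k) :=
          Nat.Coprime.pow_right k (Nat.coprime_two_right.2 h5)
        exact Nat.eq_one_of_dvd_coprimes hcop dvd_rfl h6
      have h8 : x ^ (2 * orderOf δ) = 1 := orderOf_eq_one_iff.1 h7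
      have h9 : 2 ^ k ∣ 2 * orderOf δ := by
        rw [← hk]
        exact orderOf_dvd_of_pow_eq_one h8
      have h10 : 4 ∣ 2 * orderOf δ := by
        have : (4 : ℕ) = 2 ^ 2 := by norm_num
        rw [this]
        exact (pow_dvd_pow 2 hk2).trans h9
      obtain ⟨q, hq⟩ := hne
      omega
  obtain ⟨k, hk⟩ := heven
  have hpos : 0 < orderOf δ := orderOf_pos δ
  have hz1 : δ ^ k ≠ 1 := by
    intro h
    have h1 := orderOf_dvd_of_pow_eq_one h
    have h2 := Nat.le_of_dvd (by omega) h1
    omega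
  have hzz : δ ^ k * δ ^ k = 1 := by
    rw [← pow_add, ← hk, pow_orderOf_eq_one]
  have hzi : δ ^ k * i = i * δ ^ k := by
    exact (Commute.pow_left (a := δ) (b := i) hcomm k)
  have hfin := FGL_two (δ ^ k) i hzz hi hzi hz1 hi1 hc
  refine ⟨δ, hcomm, ?_, ?_⟩
  · rw [hδx, htt]
  · rw [Subgroup.mem_zpowers_iff]
    exact ⟨(k : ℤ), by rw [zpow_natCast]; exact hfin⟩

theorem FGL (hSYF : SYF_stmt) : FGL_stmt := by
  intro G _ i x hi hi1 hcyc hfin hx
  have hiF : i ∈ Subgroup.closure ({i, x} : Set G) := Subgroup.subset_closure (by simp)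
  have hxF : x ∈ Subgroup.closure ({i, x} : Set G) := Subgroup.subset_closure (by simp)
  have : Finite (Subgroup.closure ({i, x} : Set G)) := hfin.to_subtype
  have hc : ∀ K : Subgroup (Subgroup.closure ({i, x} : Set G)),
      K ≤ Subgroup.centralizer ({(⟨i, hiF⟩ : Subgroup.closure ({i, x} : Set G))} : Set _) → IsPGroup 2 K → IsCyclic K := by
    intro K hK hp
    have h1 : K.map (Subgroup.subtype _) ≤ Subgroup.centralizer ({(1 : G)⁻¹ * i * 1} : Set G) := by
      rintro _ ⟨y, hy, rfl⟩
      have h2 := hK hy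
      rw [Subgroup.mem_centralizer_singleton_iff] at h2
      rw [Subgroup.mem_centralizer_singleton_iff]
      have h3 := congrArg Subtype.val h2
      simpa using h3
    have h2 : IsPGroup 2 (K.map (Subgroup.subtype (Subgroup.closure ({i, x} : Set G)))) := hp.map _
    have h3 := hcyc 1 _ h1 h2
    have e : K ≃* K.map (Subgroup.subtype (Subgroup.closure ({i, x} : Set G))) :=
      K.equivMapOfInjective _ (Subgroup.subtype_injective _)
    exact isCyclic_of_injective e.toMonoidHom e.injective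
  have hx' : Ord4 (⟨x, hxF⟩ : Subgroup.closure ({i, x} : Set G)) := by
    unfold Ord4 at hx ⊢
    rwa [Subgroup.orderOf_mk]
  obtain ⟨δ, h1, h2, h3⟩ := FGL_fin hSYF (⟨i, hiF⟩ : Subgroup.closure ({i, x} : Set G)) ⟨x, hxF⟩
    (Subtype.ext hi) (fun h => hi1 (congrArg Subtype.val h)) hc hx'
  refine ⟨δ.1, congrArg Subtype.val h1, congrArg Subtype.val h2, ?_⟩
  obtain ⟨n, hn⟩ := Subgroup.mem_zpowers_iff.1 h3
  rw [Subgroup.mem_zpowers_iff]
  refine ⟨n, ?_⟩
  have := congrArg Subtype.val hn
  simpa using this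

end Pool.Agent.QI
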